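import Pool.Agent.Helper15.FST.St
import Pool.Agent.Helper71.VIS.Ttn

/-! ROW `LEV` of FIRST (helper15): levels, windows and truncations. -/

set_option autoImplicit false

namespace Pool.Agent.Helper69.FST

open Finset Filter Topology Matrix Pool.Agent.Helper69.RK Pool.Agent.Helper31.EC Pool.Agent.Helper31.EC.Sp
open Pool.Agent.Helper40.EL Pool.Agent.Helper89.LX Pool.Agent.Helper84.MT Pool.Agent.Helper3.LF
open Pool.Agent.Helper49.MD Pool.Agent.Helper36.AM
open Pool.Agent.Helper52.SL (untL tnL nul_trn cellv_chg)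
open Pool.Agent.Helper81.CPY (raw sig_mk)
open Pool.Agent.Helper7.RD (volC volCO volC_eq volC_le_of volCO_le)
open Pool.Agent.Helper29.MX
open Pool.Agent.Helper15.FST

noncomputable section

variable {S T : Sp} {M N : ℕ} {E : ℕ → ℕ} {ι : Type}

/-! ### truncations of truncations -/

/-- TRUNCATION OF A TRUNCATION -/
theorem sig_trn_trn (s : MSys S M E ι) {a e : ℝ} (ha : 0 < a) (ha1 : a ≤ 1) (he : 0 < e) (he1 : e ≤ 1)
    (h0 : 0 < a * e) (h1 : a * e ≤ 1) : (⟨_, (s.trn a ha ha1).trn e he he1⟩ : Σ S : Sp, MSys S M E ι) =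
      ⟨_, s.trn (a * e) h0 h1⟩ :=
  sig_mk (fun k => (S.F k).Ω) (fun k => (S.F k).ft) (fun k => (S.F k).μ) (fun k => (S.F k).μ)
    (fun k => (S.F k).nn) (fun k => (S.F k).nn) (fun k => (S.F k).ms) (fun k => (S.F k).ms)
    (fun k => ⊤ ⊓ (⊤ ⊓ (S.F k).Z)) (fun k => ⊤ ⊓ (S.F k).Z) (fun k => e * (a * (S.F k).n)) (fun k => a * e * (S.F k).n)
    (fun k => mul_pos he (mul_pos ha (S.F k).pos)) (fun k => mul_pos h0 (S.F k).pos) _ _ rfl
    (funext fun _ => top_inf_eq _) (funext fun k => by ring) _ _ rfl (fun _ => rfl)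

/-- truncation at the level one -/
theorem sig_trn_one (s : MSys S M E ι) (h0 : (0 : ℝ) < 1) (h1 : (1 : ℝ) ≤ 1) :
    (⟨_, s.trn 1 h0 h1⟩ : Σ S : Sp, MSys S M E ι) = ⟨S, s⟩ :=
  sig_mk (fun k => (S.F k).Ω) (fun k => (S.F k).ft) (fun k => (S.F k).μ) (fun k => (S.F k).μ)
    (fun k => (S.F k).nn) (fun k => (S.F k).nn) (fun k => (S.F k).ms) (fun k => (S.F k).ms)
    (fun k => ⊤ ⊓ (S.F k).Z) (fun k => (S.F k).Z) (fun k => 1 * (S.F k).n) (fun k => (S.F k).n)
    (fun k => mul_pos one_pos (S.F k).pos) (fun k => (S.F k).pos) _ _ rfl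
    (funext fun _ => top_inf_eq _) (funext fun _ => one_mul _) _ _ rfl (fun _ => rfl)

/-- the volume of the type-hull of a pair (space, system) -/
def vB (x : Σ S : Sp, MSys S M E ι) (c : ℝ) : ℝ := volKO x.2 (rbot x.1) c

theorem UL_of (s : MSys S N E ι) {r : ℝ} (h0 : 0 < r) (h1 : r ≤ 1) (c : ℝ) :
    UL s r c = r * (N - vB ⟨_, s.trn r h0 h1⟩ (c / r)) := dif_pos ⟨h0, h1⟩

/-- the codimension at the level one -/
theorem UL_one (s : MSys S N E ι) (c : ℝ) : UL s 1 c = N - volKO s (rbot S) c := by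
  rw [UL_of s one_pos le_rfl, sig_trn_one, one_mul, div_one]
  rfl

/-- codimensions of truncations -/
theorem UL_trn (s : MSys S N E ι) {a e : ℝ} (ha : 0 < a) (ha1 : a ≤ 1) (he : 0 < e) (he1 : e ≤ 1) (c : ℝ) :
    a * UL (s.trn a ha ha1) e c = UL s (a * e) (a * c) := by
  have h0 := mul_pos ha he
  have h1 : a * e ≤ 1 := mul_le_one₀ ha1 he.le he1
  rw [UL_of _ he he1, UL_of s h0 h1, sig_trn_trn s ha ha1 he he1 h0 h1, mul_div_mul_left c e ha.ne', mul_assoc]

/-- the codimension increases with the level -/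
theorem UL_level [Finite ι] (s : MSys S N E ι) {e e' : ℝ} (he : 0 < e) (h : e ≤ e') (he' : e' ≤ 1) (c : ℝ) :
    UL s e c ≤ UL s e' c := by
  have h0 : 0 < e' := he.trans_le h
  have hr0 : 0 < e / e' := div_pos he h0
  have hr1 : e / e' ≤ 1 := (div_le_one h0).mpr h
  have e1 : e' * (e / e') = e := by field_simp
  have e2 : e' * (c / e') = c := by field_simp
  have h1 := UL_trn s h0 he' hr0 hr1 (c / e')
  rw [e1, e2] at h1
  rw [← h1, UL_of _ hr0 hr1, UL_of s h0 he']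
  refine mul_le_mul_of_nonneg_left ?_ h0.le
  have h2 := Pool.Agent.Helper71.VIS.volKO_trn (s.trn e' h0 he') hr0 hr1 (rbot (S.chg S.tr e' h0)) (c / e' / (e / e'))
  have e3 : e / e' * (c / e' / (e / e')) = c / e' := by field_simp
  rw [e3] at h2
  exact h2

/-- the codimension increases with the window -/
theorem UL_window [Finite ι] (s : MSys S N E ι) {e c c' : ℝ} (he : 0 < e) (he1 : e ≤ 1) (h : c ≤ c') :
    UL s e c ≤ UL s e c' := by
  rw [UL_of s he he1, UL_of s he he1]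
  refine mul_le_mul_of_nonneg_left ?_ he.le
  exact sub_le_sub_left (Pool.Agent.Helper71.VIS.volKO_mono (s.trn e he he1) (rbot _)
    (div_le_div_of_nonneg_right h he.le)) _

/-! ### labels of truncations -/

/-- type-labels of truncations -/
theorem TLb_trn (s : MSys S M E ι) {a : ℝ} (ha : 0 < a) (ha1 : a ≤ 1) (c : ℝ) (l : Lab (S.chg S.tr a ha)) :
    TLb (s.trn a ha ha1) c l ↔ TLb s (a * c) (untL l) := by
  refine forall_congr' fun i => ?_
  have h1 := Pool.Agent.Helper71.VIS.cndR_trn s ha ha1 (rbot S) c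
  have h2 := Pool.Agent.Helper71.VIS.cndR_fcs s (rbot S) (a * c)
  have h3 : ((s.trn a ha ha1).lf i).win c =
      fun k => fc (F := (S.chg S.tr a ha).F k) (Pool.Agent.Helper71.VIS.cnw s (rbot S) (a * c) (some i) k) :=
    congrFun h1 (some i)
  have h4 : (s.lf i).win (a * c) = fun k => fc (Pool.Agent.Helper71.VIS.cnw s (rbot S) (a * c) (some i) k) :=
    congrFun h2 (some i)
  rw [h3, h4]
  exact nul_trn

/-- entropies of the cells over labels of truncations -/
theorem H_trn_dg (s : MSys S M E ι) {a : ℝ} (ha : 0 < a) (ha1 : a ≤ 1) (e : ℝ) (l : Lab (S.chg S.tr a ha)) :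
    a * H (up1 l ((s.trn a ha ha1).Q.dg e)) = H (up1 (untL l) (s.Q.dg (a * e))) := by
  have h1 : (s.trn a ha ha1).Q.dg e = chgL S.tr a ha (s.Q.dg (a * e)) := s.Q.chg_dg S.tr a ha e
  rw [h1, Pool.Agent.Helper71.VIS.H_untL]
  field_simp

/-- least entropies of truncations -/
theorem HL_trn (s : MSys S N E ι) {a : ℝ} (ha : 0 < a) (ha1 : a ≤ 1) (e c : ℝ) :
    a * HL (s.trn a ha ha1) e c = HL s (a * e) (a * c) := by
  unfold HL
  have h1 := Real.sInf_smul_of_nonneg ha.le {v | ∃ l : Lab (S.chg S.tr a ha), TLb (s.trn a ha ha1) c l ∧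
    v = H (up1 l ((s.trn a ha ha1).Q.dg e))}
  rw [smul_eq_mul] at h1
  rw [← h1]
  congr 1
  ext v
  constructor
  · rintro ⟨w, ⟨l, hl, rfl⟩, rfl⟩
    exact ⟨untL l, (TLb_trn s ha ha1 c l).mp hl, H_trn_dg s ha ha1 e l⟩
  · rintro ⟨l, hl, rfl⟩
    have e1 : untL (tnL a ha l) = l := Pool.Agent.Helper84.MT.untL_tnL ha l
    have h2 : TLb (s.trn a ha ha1) c (tnL a ha l) := by
      rw [TLb_trn, e1]
      exact hl
    refine ⟨_, ⟨tnL a ha l, h2, rfl⟩, ?_⟩
    have h3 := H_trn_dg s ha ha1 e (tnL a ha l)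
    rw [e1] at h3
    exact h3

/-! ### counting -/

/-- the entropy over the label of a nearly optimal form -/
theorem HL_one [Finite ι] (s : MSys S N E ι) (c : ℝ) : HL s 1 c ≤ volKO s (rbot S) c := by
  refine le_of_forall_pos_lt_add fun ε hε => ?_
  have h1 : volCO (KZ (rbot S)) (Pool.Agent.Helper87.NSL.cndR s (rbot S) c) s.Q < volKO s (rbot S) c + ε := by
    rw [← volKO_eq]
    exact lt_add_of_pos_right _ hε
  obtain ⟨D₀, hD⟩ := Pool.Agent.Helper84.KR.volCO_lt h1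
  have h2 := hD (D₀ + 1) (Nat.le_succ _)
  obtain ⟨x, hx⟩ := (gaq s.Q (D₀ + 1)).exists_optfK (KZ (rbot S)) (Pool.Agent.Helper87.NSL.cndR s (rbot S) c)
  rw [volC_eq hx] at h2
  have h3 := Pool.Agent.Helper14.MC.cnt_vol s.Q (Nat.le_add_left 1 D₀) x hx.1.1
  have hd : Lab.DMf (lb x) (Pool.Agent.Helper87.NSL.cndR s (rbot S) c) := hx.1.1.dm
  have h4 : TLb s c (lb x) := fun i => hd (some i)
  have h5 : HL s 1 c ≤ H (up1 (lb x) (s.Q.dg 1)) :=
    csInf_le ⟨0, by rintro v ⟨l, -, rfl⟩; exact H_nonneg _⟩ ⟨lb x, h4, rfl⟩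
  linarith

/-- the entropy of the cells of level `e` over the best type-label -/
theorem HL_le [Finite ι] (s : MSys S N E ι) {e : ℝ} (he : 0 < e) (he1 : e ≤ 1) (c : ℝ) :
    HL s e c ≤ N * e - UL s e c := by
  have h1 := HL_one (s.trn e he he1) (c / e)
  have h2 := HL_trn s he he1 1 (c / e)
  have e1 : e * (c / e) = c := by field_simp
  rw [mul_one, e1] at h2
  rw [← h2, UL_of s he he1]
  have h3 : vB ⟨_, s.trn e he he1⟩ (c / e) = volKO (s.trn e he he1) (rbot _) (c / e) := rfl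
  rw [h3]
  have h4 := mul_le_mul_of_nonneg_left h1 he.le
  linarith

/-- **ROW LEV** -/
theorem row_lev : ROW_LEV := by
  intro S N g r s
  refine ⟨fun c _ _ => UL_one s c, fun e e' c he h he' _ _ => UL_level s he h he' c,
    fun e c c' he he1 _ h _ => UL_window s he he1 h, fun e c he he1 _ _ => HL_le s he he1 c, ?_⟩
  intro a e c h0 h1 he he1 _ _
  exact ⟨UL_trn s h0 h1 he he1 c, HL_trn s h0 h1 e c⟩

end

end Pool.Agent.Helper69.FST
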